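import Pool.Agent.FHQ.StmtsP

/-!
# Squad FHQ, row QE1: the quantifier over `K`, for one field
-/

open scoped BigOperators

noncomputable section

namespace Pool.Agent.FHQ.H72

open Polynomial Pool.Agent.FHQ

variable {p : ℕ} {K : Type} [Field K]

/-- `Sp` vanishes if all the coefficients vanish -/
theorem Sp_zero {D : ℕ} (a : Fin D → ZMod p) (s : Fin D → ℤ) (g : ℤ) (z : ZMod p)
    (h : ∀ k, a k = 0) : Sp a s g z = 0 := by
  unfold Sp
  refine Finset.sum_eq_zero (fun k _ => ?_)
  rw [if_neg (fun hk => hk.1 (h k))]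

/-- `Mu` vanishes if all the coefficients vanish -/
theorem Mu_zero {D : ℕ} (a : Fin D → ZMod p) (s : Fin D → ℤ) (g : ℤ)
    (h : ∀ k, a k = 0) : Mu a s g = 0 := by
  unfold Mu
  rw [dif_neg]
  rintro ⟨k, hk⟩
  exact hk.1 (h k)

theorem key [Fact p.Prime] (hE : ExpStmt) (A : AcF0 p K) (D : ℕ) (f : K[X]) (hf : f.natDegree < D)
    (c t : K) (ht : t ≠ 0)
    (h : (∀ k : Fin D, A.ac ((taylor c f).coeff k) = 0) ∨
      Sp (A.cac D (taylor c f)) (A.cv D (taylor c f)) (A.v t) (A.ac t) ≠ 0) :
    A.ac (f.eval (t + c)) = Sp (A.cac D (taylor c f)) (A.cv D (taylor c f)) (A.v t) (A.ac t) ∧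
    A.v (f.eval (t + c)) = Mu (A.cac D (taylor c f)) (A.cv D (taylor c f)) (A.v t) := by
  by_cases h0 : f = 0
  · subst h0
    have hz : ∀ k : Fin D, A.cac D (taylor c (0 : K[X])) k = 0 := by
      intro k
      simp only [AcF0.cac, map_zero, coeff_zero]
      exact (A.ac_zero 0).2 rfl
    rw [Sp_zero _ _ _ _ hz, Mu_zero _ _ _ hz, eval_zero]
    exact ⟨(A.ac_zero 0).2 rfl, A.v_zero⟩
  · have hW : taylor c f ≠ 0 := fun e => h0 ((taylor_eq_zero c f).1 e)
    have hd : (taylor c f).natDegree < D := by rw [natDegree_taylor]; exact hf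
    have hs : Sp (A.cac D (taylor c f)) (A.cv D (taylor c f)) (A.v t) (A.ac t) ≠ 0 := by
      rcases h with h | h
      · exfalso
        apply hW
        ext k
        rw [coeff_zero]
        by_cases hk : k < D
        · exact (A.ac_zero _).1 (h ⟨k, hk⟩)
        · exact coeff_eq_zero_of_natDegree_lt (by omega)
      · exact h
    have := ((hE p K A (taylor c f) D hW hd t ht).1 hs).2
    rw [taylor_eval] at this
    exact this

theorem qe1 (hN : NeaStmt) (hE : ExpStmt) : Qe1Stmt := by
  intro p _ K _ A r D h hD2 hDp hdeg C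
  have hdegH : ∀ w ∈ insert (X : K[X]) (Set.range h), w.natDegree < D := by
    rintro w (rfl | ⟨l, rfl⟩)
    · rw [natDegree_X]; omega
    · exact hdeg l
  have hlt : ∀ w ∈ insert (X : K[X]) (Set.range h), ∀ s : ℕ, derivative^[s] w ≠ 0 → s < D := by
    intro w hw s hs
    by_contra hc
    exact hs (iterate_derivative_eq_zero (lt_of_lt_of_le (hdegH w hw) (not_lt.1 hc)))
  constructor
  · rintro ⟨x, hx⟩
    obtain ⟨n1, n2, -⟩ := hN p K A D (insert (X : K[X]) (Set.range h)) hDp
      ((Set.finite_range h).insert X) hdegH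
    by_cases hxR : x ∈ Rts (insert (X : K[X]) (Set.range h))
    · obtain ⟨w, hw, s, hs, he⟩ := hxR
      exact ⟨w, hw, s, hlt w hw s hs, hs, x, he, Or.inl hx⟩
    · have hne : (Rts (insert (X : K[X]) (Set.range h))).Nonempty :=
        ⟨0, X, Set.mem_insert _ _, 0, by simp, by simp⟩
      obtain ⟨c, hcR, hc⟩ := n2 x hxR hne
      have hsp := n1 x c hxR hcR hc
      have hxc : x - c ≠ 0 := by
        intro e
        apply hxR
        rw [sub_eq_zero.1 e]
        exact hcR
      obtain ⟨w, hw, s, hs, he⟩ := hcR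
      refine ⟨w, hw, s, hlt w hw s hs, hs, c, he, Or.inr ?_⟩
      have hal : ∀ l, (∀ k : Fin D, A.ac ((taylor c (h l)).coeff k) = 0) ∨
          Sp (A.cac D (taylor c (h l))) (A.cv D (taylor c (h l))) (A.v (x - c)) (A.ac (x - c))
            ≠ 0 := by
        intro l
        by_cases h0 : h l = 0
        · left
          intro k
          rw [h0, map_zero, coeff_zero]
          exact (A.ac_zero 0).2 rfl
        · right
          exact hsp (h l) (Set.mem_insert_of_mem _ ⟨l, rfl⟩) h0
      refine ⟨A.ac (x - c), A.v (x - c), fun e => hxc ((A.ac_zero _).1 e), ?_, ?_, ?_⟩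
      · intro l hl
        exact absurd hl (Finset.notMem_empty l)
      · intro l _
        exact hal l
      · have k1 : (fun l => A.ac ((h l).eval x)) = fun l =>
            Sp (A.cac D (taylor c (h l))) (A.cv D (taylor c (h l))) (A.v (x - c)) (A.ac (x - c)) := by
          funext l
          have := (key hE A.toAcF0 D (h l) (hdeg l) c (x - c) hxc (hal l)).1
          rw [sub_add_cancel] at this
          exact this
        have k2 : (fun l => A.v ((h l).eval x)) = fun l =>
            Mu (A.cac D (taylor c (h l))) (A.cv D (taylor c (h l))) (A.v (x - c)) := by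
          funext l
          have := (key hE A.toAcF0 D (h l) (hdeg l) c (x - c) hxc (hal l)).2
          rw [sub_add_cancel] at this
          exact this
        rw [k1, k2] at hx
        exact hx
  · rintro ⟨w, hw, s, hsD, hs, c, hc, hx | ⟨z, g, hz, -, hal, hC⟩⟩
    · exact ⟨c, hx⟩
    · obtain ⟨t, ht, hac, hv⟩ := A.surj z g hz
      refine ⟨t + c, ?_⟩
      subst hac hv
      have k1 : (fun l => A.ac ((h l).eval (t + c))) = fun l =>
          Sp (A.cac D (taylor c (h l))) (A.cv D (taylor c (h l))) (A.v t) (A.ac t) := by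
        funext l
        exact (key hE A.toAcF0 D (h l) (hdeg l) c t ht (hal l (Finset.notMem_empty l))).1
      have k2 : (fun l => A.v ((h l).eval (t + c))) = fun l =>
          Mu (A.cac D (taylor c (h l))) (A.cv D (taylor c (h l))) (A.v t) := by
        funext l
        exact (key hE A.toAcF0 D (h l) (hdeg l) c t ht (hal l (Finset.notMem_empty l))).2
      rw [k1, k2]
      exact hC

end Pool.Agent.FHQ.H72
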